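import Mathlib

/-!
# Normal versus characteristic subgroups needing many normal generators: definitions of the statement
-/

namespace Pool.H80.MV.NegativeAnswer

open Subgroup

open scoped commutatorElement

set_option linter.unusedSectionVars false

/-- `dG N` is the least number of elements of `G` whose conjugates topologically generate `N`,
i.e. the least size of a finite set whose closed normal closure in `G` is `N`. -/
noncomputable def dG {G : Type*} [Group G] [TopologicalSpace G] [IsTopologicalGroup G]
    (N : Subgroup G) : ℕ :=
  sInf {n : ℕ | ∃ S : Finset G, S.card = n ∧
    (Subgroup.normalClosure (S : Set G)).topologicalClosure = N}

end Pool.H80.MV.NegativeAnswer
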