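import Mathlib
import Pool.Agent.H80.MV.NegativeAnswerDefs

/-!
# Normal versus characteristic subgroups needing many normal generators: the proof
-/

namespace Pool.H80.MV.NegativeAnswer

open Subgroup

open scoped commutatorElement

set_option linter.unusedSectionVars false

section Algebra

variable {G : Type*} [Group G]

/-- The abstract subgroup `N^p [N, G]`. -/
def starSub (p : ℕ) (N : Subgroup G) : Subgroup G :=
  Subgroup.closure {x | ∃ n ∈ N, n ^ p = x} ⊔ ⁅N, (⊤ : Subgroup G)⁆

/-- The preimage in `G` of the elements of exponent `p` in the centre of `G ⧸ W`. -/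
def zSub (p : ℕ) (W : Subgroup G) [hW : W.Normal] : Subgroup G where
  carrier := {x | x ^ p ∈ W ∧ ∀ g : G, ⁅x, g⁆ ∈ W}
  one_mem' := by simp [W.one_mem]
  mul_mem' := by
    rintro a b ⟨ha, ha'⟩ ⟨hb, hb'⟩
    have key : ∀ x : G, (∀ g : G, ⁅x, g⁆ ∈ W) ↔
        ∀ g : G, Commute (QuotientGroup.mk' W x) (QuotientGroup.mk' W g) := by
      intro x
      refine forall_congr' fun g => ?_
      rw [← commutatorElement_eq_one_iff_commute, ← map_commutatorElement]
      exact (QuotientGroup.eq_one_iff _).symm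
    have kp : ∀ x : G, x ^ p ∈ W ↔ (QuotientGroup.mk' W x) ^ p = 1 := by
      intro x
      rw [← map_pow]
      exact (QuotientGroup.eq_one_iff _).symm
    rw [key] at ha' hb'
    refine ⟨?_, ?_⟩
    · rw [kp] at ha hb ⊢
      rw [map_mul, (ha' _).mul_pow, ha, hb, one_mul]
    · rw [key]
      intro g
      rw [map_mul]
      exact (ha' g).mul_left (hb' g)
  inv_mem' := by
    rintro a ⟨ha, ha'⟩
    refine ⟨by rw [inv_pow]; exact W.inv_mem ha, fun g => ?_⟩
    rw [commutatorElement_inv_left]
    have h2 := ha' g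
    rw [← commutatorElement_inv] 
    have := hW.conj_mem _ (W.inv_mem h2) a⁻¹
    simpa using this

theorem mem_zSub {p : ℕ} {W : Subgroup G} [W.Normal] {x : G} :
    x ∈ zSub p W ↔ x ^ p ∈ W ∧ ∀ g : G, ⁅x, g⁆ ∈ W := Iff.rfl

theorem starSub_le_iff {p : ℕ} {N W : Subgroup G} [W.Normal] :
    starSub p N ≤ W ↔ N ≤ zSub p W := by
  unfold starSub
  rw [sup_le_iff, Subgroup.closure_le, Subgroup.commutator_le]
  constructor
  · rintro ⟨h1, h2⟩ x hx
    exact ⟨h1 ⟨x, hx, rfl⟩, fun g => h2 x hx g (Subgroup.mem_top g)⟩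
  · intro h
    refine ⟨?_, ?_⟩
    · rintro _ ⟨n, hn, rfl⟩
      exact (h hn).1
    · intro n hn g _
      exact (h hn).2 g

theorem commutator_le_starSub (p : ℕ) (N : Subgroup G) : ⁅N, (⊤ : Subgroup G)⁆ ≤ starSub p N :=
  le_sup_right

theorem pow_mem_starSub (p : ℕ) {N : Subgroup G} {x : G} (hx : x ∈ N) : x ^ p ∈ starSub p N :=
  (le_sup_left : _ ≤ starSub p N) (Subgroup.subset_closure ⟨x, hx, rfl⟩)

theorem starSub_le (p : ℕ) (N : Subgroup G) [hN : N.Normal] : starSub p N ≤ N := by
  unfold starSub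
  rw [sup_le_iff, Subgroup.closure_le]
  refine ⟨?_, Subgroup.commutator_le_left _ _⟩
  rintro _ ⟨n, hn, rfl⟩
  exact N.pow_mem hn p

theorem starSub_mono (p : ℕ) {N M : Subgroup G} (h : N ≤ M) : starSub p N ≤ starSub p M := by
  unfold starSub
  refine sup_le_sup (Subgroup.closure_mono ?_) (Subgroup.commutator_mono h le_rfl)
  rintro _ ⟨n, hn, rfl⟩
  exact ⟨n, h hn, rfl⟩

/-- a subgroup between `[N,G]` and `N` is normal -/
theorem normal_of_between {N X : Subgroup G} (h1 : ⁅N, (⊤ : Subgroup G)⁆ ≤ X) (h2 : X ≤ N) :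
    X.Normal := by
  refine ⟨fun x hx g => ?_⟩
  have : g * x * g⁻¹ = ⁅x, g⁆⁻¹ * x := by
    simp only [commutatorElement_def]; group
  rw [this]
  exact X.mul_mem (X.inv_mem (h1 (Subgroup.commutator_mem_commutator (h2 hx) (Subgroup.mem_top g)))) hx

instance starSub_normal (p : ℕ) (N : Subgroup G) [N.Normal] : (starSub p N).Normal :=
  normal_of_between (commutator_le_starSub p N) (starSub_le p N)

theorem starSub_sup (p : ℕ) (A B : Subgroup G) [A.Normal] [B.Normal] :
    starSub p (A ⊔ B) = starSub p A ⊔ starSub p B := by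
  apply le_antisymm
  · rw [starSub_le_iff, sup_le_iff, ← starSub_le_iff, ← starSub_le_iff]
    exact ⟨le_sup_left, le_sup_right⟩
  · exact sup_le (starSub_mono p le_sup_left) (starSub_mono p le_sup_right)

theorem map_starSub {H : Type*} [Group H] (f : G →* H) (hf : Function.Surjective f) (p : ℕ)
    (N : Subgroup G) : (starSub p N).map f = starSub p (N.map f) := by
  unfold starSub
  rw [Subgroup.map_sup, Subgroup.map_commutator, MonoidHom.map_closure,
    Subgroup.map_top_of_surjective f hf]
  congr 2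
  ext y
  constructor
  · rintro ⟨_, ⟨n, hn, rfl⟩, rfl⟩
    exact ⟨f n, ⟨n, hn, rfl⟩, by simp⟩
  · rintro ⟨_, ⟨n, hn, rfl⟩, rfl⟩
    exact ⟨n ^ p, ⟨n, hn, rfl⟩, by simp⟩

theorem index_mul_index (A B : Subgroup G) [A.Normal] [B.Normal] :
    A.index * B.index = (A ⊔ B).index * (A ⊓ B).index := by
  have h1 : (A ⊓ B).relIndex A * A.index = (A ⊓ B).index := relIndex_mul_index inf_le_left
  have h2 : B.relIndex (A ⊔ B) * (A ⊔ B).index = B.index := relIndex_mul_index le_sup_right
  rw [inf_relIndex_left] at h1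
  rw [relIndex_sup_right] at h2
  rw [← h1, ← h2]
  ring

/-- supermodularity -/
theorem index_star_mul_le (p : ℕ) (A B : Subgroup G) [A.Normal] [B.Normal]
    [(starSub p (A ⊓ B)).FiniteIndex] :
    (starSub p A).index * (starSub p B).index ≤
      (starSub p (A ⊔ B)).index * (starSub p (A ⊓ B)).index := by
  rw [index_mul_index, starSub_sup]
  refine Nat.mul_le_mul_left _ (index_antitone ?_)
  exact le_inf (starSub_mono p inf_le_left) (starSub_mono p inf_le_right)

end Algebra

section Finite

variable {G : Type*} [Group G]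

theorem iterate_star_mono (p : ℕ) (k : ℕ) {A B : Subgroup G} (h : A ≤ B) :
    (starSub p)^[k] A ≤ (starSub p)^[k] B := by
  induction k generalizing A B with
  | zero => simpa using h
  | succ k ih => simpa using ih (starSub_mono p h)

theorem map_iterate_star {H : Type*} [Group H] (f : G →* H) (hf : Function.Surjective f) (p : ℕ)
    (k : ℕ) (N : Subgroup G) :
    ((starSub p)^[k] N).map f = (starSub p)^[k] (N.map f) := by
  induction k generalizing N with
  | zero => rfl
  | succ k ih => simp only [Function.iterate_succ, Function.comp]; rw [ih, map_starSub f hf]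

theorem iterate_star_eq_bot (p : ℕ) [hp : Fact p.Prime] (n : ℕ) :
    ∀ (P : Type _) [Group P] [Finite P], IsPGroup p P → Nat.card P = n →
      ∀ k, n ≤ k → (starSub p)^[k] (⊤ : Subgroup P) = ⊥ := by
  induction n using Nat.strong_induction_on with
  | _ n ih =>
    intro P _ _ hP hn k hk
    rcases subsingleton_or_nontrivial P with hs | hs
    · exact Subsingleton.elim _ _
    · have hc : Nontrivial (Subgroup.center P) := hP.center_nontrivial
      have hcp : IsPGroup p (Subgroup.center P) := hP.to_subgroup _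
      obtain ⟨m, hm0, hm⟩ := hcp.nontrivial_iff_card.1 hc
      have hdvd : p ∣ Nat.card (Subgroup.center P) := by
        rw [hm]; exact dvd_pow_self _ (by omega)
      obtain ⟨z, hz⟩ := exists_prime_orderOf_dvd_card' p hdvd
      have hzc : (z : P) ∈ Subgroup.center P := z.2
      have hzo : orderOf (z : P) = p := by rw [Subgroup.orderOf_coe, hz]
      let Z := Subgroup.zpowers (z : P)
      have hZc : Z ≤ Subgroup.center P := by
        rw [Subgroup.zpowers_le]; exact hzc
      have : Z.Normal := by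
        refine ⟨fun x hx g => ?_⟩
        have := Subgroup.mem_center_iff.1 (hZc hx) g
        rw [this, mul_inv_cancel_right]; exact hx
      have hZcard : Nat.card Z = p := by rw [Nat.card_zpowers, hzo]
      have hlt : Nat.card (P ⧸ Z) < n := by
        have h1 := Subgroup.card_eq_card_quotient_mul_card_subgroup Z
        rw [hn, hZcard] at h1
        have h2 : 0 < Nat.card (P ⧸ Z) := Nat.card_pos
        have h3 := hp.out.one_lt
        nlinarith
      obtain ⟨k', rfl⟩ : ∃ k', k = k' + 1 := ⟨k - 1, by omega⟩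
      have hkq := ih _ hlt (P ⧸ Z) (hP.to_quotient Z) rfl k' (by omega)
      have hle : (starSub p)^[k'] (⊤ : Subgroup P) ≤ Z := by
        have h1 := map_iterate_star (QuotientGroup.mk' Z) (QuotientGroup.mk'_surjective Z) p k' ⊤
        rw [Subgroup.map_top_of_surjective _ (QuotientGroup.mk'_surjective Z), hkq,
          Subgroup.map_eq_bot_iff, QuotientGroup.ker_mk'] at h1
        exact h1
      rw [Function.iterate_succ', Function.comp, eq_bot_iff]
      refine (starSub_mono p hle).trans ?_
      rw [starSub_le_iff]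
      intro x hx
      refine ⟨?_, fun g => ?_⟩
      · obtain ⟨i, rfl⟩ := Subgroup.mem_zpowers_iff.1 hx
        rw [Subgroup.mem_bot, ← zpow_natCast, ← zpow_mul, mul_comm, zpow_mul, zpow_natCast,
          ← hzo, pow_orderOf_eq_one, one_zpow]
      · rw [Subgroup.mem_bot, commutatorElement_eq_one_iff_mul_comm]
        exact (Subgroup.mem_center_iff.1 (hZc hx) g).symm

end Finite

section Nilp

/-- products `∏ [n_x, x]`, `x` running through the list, `n_x ∈ N` -/
def commProd {G : Type*} [Group G] (N : Subgroup G) : List G → Set G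
  | [] => {1}
  | x :: l => {g | ∃ n ∈ N, ∃ y ∈ commProd N l, ⁅n, x⁆ * y = g}

variable {G : Type*} [Group G]

theorem one_mem_commProd (N : Subgroup G) (l : List G) : (1 : G) ∈ commProd N l := by
  induction l with
  | nil => simp [commProd]
  | cons x l ih => exact ⟨1, N.one_mem, 1, ih, by simp⟩

theorem commProd_subset (N : Subgroup G) (l : List G) :
    commProd N l ⊆ (⁅N, (⊤ : Subgroup G)⁆ : Subgroup G) := by
  induction l with
  | nil => rintro _ rfl; exact Subgroup.one_mem _
  | cons x l ih =>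
    rintro _ ⟨n, hn, y, hy, rfl⟩
    exact Subgroup.mul_mem _ (Subgroup.commutator_mem_commutator hn (Subgroup.mem_top x)) (ih hy)

theorem mem_commProd_map {H : Type*} [Group H] (f : G →* H) (N : Subgroup G) (l : List G) (h : H)
    (hh : h ∈ commProd (N.map f) (l.map f)) : ∃ g ∈ commProd N l, f g = h := by
  induction l generalizing h with
  | nil =>
    obtain rfl : h = 1 := hh
    exact ⟨1, one_mem_commProd N [], map_one f⟩
  | cons x l ih =>
    obtain ⟨_, ⟨n, hn, rfl⟩, y, hy, rfl⟩ := hh
    obtain ⟨z, hz, rfl⟩ := ih y hy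
    exact ⟨⁅n, x⁆ * z, ⟨n, hn, z, hz, rfl⟩, by rw [map_mul, map_commutatorElement]⟩

theorem commProd_mul_mem {N M : Subgroup G} (hMN : M ≤ N)
    (hc : ∀ a ∈ M, ∀ x y : G, Commute ⁅a, x⁆ y)
    (hcc : ∀ a ∈ M, ∀ c ∈ (⁅N, (⊤ : Subgroup G)⁆ : Subgroup G), Commute a c) (l : List G) :
    ∀ y ∈ commProd N l, ∀ m ∈ commProd M l, y * m ∈ commProd N l := by
  induction l with
  | nil =>
    rintro _ rfl _ rfl
    simp [commProd]
  | cons x l ih =>
    rintro _ ⟨n, hn, y, hy, rfl⟩ _ ⟨a, ha, m, hm, rfl⟩
    refine ⟨a * n, N.mul_mem (hMN ha) hn, y * m, ih y hy m hm, ?_⟩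
    have h1 : ⁅a * n, x⁆ = ⁅n, x⁆ * ⁅a, x⁆ := by
      have h2 := hcc a ha _ (Subgroup.commutator_mem_commutator hn (Subgroup.mem_top x))
      have h3 : ⁅a * n, x⁆ = (a * ⁅n, x⁆ * a⁻¹) * ⁅a, x⁆ := by
        simp only [commutatorElement_def]; group
      rw [h3, h2.eq, mul_inv_cancel_right]
    rw [h1]
    have h4 := (hc a ha x y).eq
    calc ⁅n, x⁆ * ⁅a, x⁆ * (y * m) = ⁅n, x⁆ * (⁅a, x⁆ * y) * m := by group
      _ = ⁅n, x⁆ * (y * ⁅a, x⁆) * m := by rw [h4]
      _ = ⁅n, x⁆ * y * (⁅a, x⁆ * m) := by group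

theorem commProd_inv_mem {M : Subgroup G}
    (hc : ∀ a ∈ M, ∀ x y : G, Commute ⁅a, x⁆ y) (l : List G) :
    ∀ y ∈ commProd M l, y⁻¹ ∈ commProd M l := by
  induction l with
  | nil => rintro _ rfl; simp [commProd]
  | cons x l ih =>
    rintro _ ⟨a, ha, y, hy, rfl⟩
    refine ⟨a⁻¹, M.inv_mem ha, y⁻¹, ih y hy, ?_⟩
    have h1 : ⁅a⁻¹, x⁆ = ⁅a, x⁆⁻¹ := by
      have h3 : ⁅a⁻¹, x⁆ = a⁻¹ * ⁅a, x⁆⁻¹ * a := by
        simp only [commutatorElement_def]; group
      rw [h3, mul_assoc, ((hc a ha x a).inv_left).eq, ← mul_assoc, inv_mul_cancel, one_mul]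
    rw [h1, mul_inv_rev, (((hc a ha x y).inv_left).inv_right).eq]

theorem commutatorElement_mem_commProd {M : Subgroup G} {x : G} {l : List G} (hx : x ∈ l)
    {a : G} (ha : a ∈ M) : ⁅a, x⁆ ∈ commProd M l := by
  induction l with
  | nil => simp at hx
  | cons z l ih =>
    rcases List.mem_cons.1 hx with rfl | hx
    · exact ⟨a, ha, 1, one_mem_commProd M l, by simp⟩
    · exact ⟨1, M.one_mem, _, ih hx, by simp⟩

theorem central_commutator_subset {M : Subgroup G}
    (hc : ∀ a ∈ M, ∀ x y : G, Commute ⁅a, x⁆ y) {l : List G}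
    (hl : Subgroup.closure {x | x ∈ l} = ⊤) :
    ((⁅M, (⊤ : Subgroup G)⁆ : Subgroup G) : Set G) ⊆ commProd M l := by
  have hcent : ∀ c ∈ (⁅M, (⊤ : Subgroup G)⁆ : Subgroup G), ∀ y, Commute c y := by
    intro c hc' y
    have : (⁅M, (⊤ : Subgroup G)⁆ : Subgroup G) ≤ Subgroup.center G := by
      rw [Subgroup.commutator_le]
      intro a ha x _
      rw [Subgroup.mem_center_iff]
      intro g
      exact ((hc a ha x g).eq).symm
    exact ((Subgroup.mem_center_iff.1 (this hc')) y).symm
  have hmul := commProd_mul_mem (N := M) (M := M) le_rfl hc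
    (fun a _ c hc' => (hcent c hc' a).symm) l
  let Y : Subgroup G :=
    { carrier := commProd M l
      one_mem' := one_mem_commProd M l
      mul_mem' := fun {a b} ha hb => hmul a ha b hb
      inv_mem' := fun {a} ha => commProd_inv_mem hc l a ha }
  let T : Subgroup G :=
    { carrier := {g | ∀ a ∈ M, ⁅a, g⁆ ∈ Y}
      one_mem' := by
        intro a _
        rw [commutatorElement_one_right]; exact Y.one_mem
      mul_mem' := by
        intro g h hg hh a ha
        have h3 : ⁅a, g * h⁆ = ⁅a, g⁆ * (g * ⁅a, h⁆ * g⁻¹) := by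
          simp only [commutatorElement_def]; group
        rw [h3, ← (hc a ha h g).eq, mul_inv_cancel_right]
        exact Y.mul_mem (hg a ha) (hh a ha)
      inv_mem' := by
        intro g hg a ha
        have h3 : ⁅a, g⁻¹⁆ = g⁻¹ * ⁅a, g⁆⁻¹ * g := by
          simp only [commutatorElement_def]; group
        rw [h3, mul_assoc, ((hc a ha g g).inv_left).eq, ← mul_assoc, inv_mul_cancel, one_mul]
        exact Y.inv_mem (hg a ha) }
  have hT : T = ⊤ := by
    rw [eq_top_iff, ← hl, Subgroup.closure_le]
    intro x hx a ha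
    exact commutatorElement_mem_commProd hx ha
  have : (⁅M, (⊤ : Subgroup G)⁆ : Subgroup G) ≤ Y := by
    rw [Subgroup.commutator_le]
    intro a ha x _
    have : x ∈ T := by rw [hT]; exact Subgroup.mem_top x
    exact this a ha
  exact this

/-- the operation `N ↦ [N, G]` -/
def lcStep (N : Subgroup G) : Subgroup G := ⁅N, (⊤ : Subgroup G)⁆

theorem lcStep_le (N : Subgroup G) [N.Normal] : lcStep N ≤ N := Subgroup.commutator_le_left _ _

instance lcStep_normal (N : Subgroup G) [N.Normal] : (lcStep N).Normal := by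
  unfold lcStep; infer_instance

instance iterate_lcStep_normal (N : Subgroup G) [N.Normal] (k : ℕ) :
    ((lcStep)^[k] N).Normal := by
  induction k with
  | zero => simpa using (inferInstance : N.Normal)
  | succ k ih =>
    rw [Function.iterate_succ', Function.comp]
    infer_instance

theorem iterate_lcStep_le (N : Subgroup G) [N.Normal] (k : ℕ) : (lcStep)^[k] N ≤ N := by
  induction k with
  | zero => simp
  | succ k ih =>
    rw [Function.iterate_succ', Function.comp]
    exact (lcStep_le _).trans ih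

theorem map_lcStep {H : Type*} [Group H] (f : G →* H) (hf : Function.Surjective f)
    (N : Subgroup G) : (lcStep N).map f = lcStep (N.map f) := by
  unfold lcStep
  rw [Subgroup.map_commutator, Subgroup.map_top_of_surjective f hf]

theorem map_iterate_lcStep {H : Type*} [Group H] (f : G →* H) (hf : Function.Surjective f)
    (k : ℕ) (N : Subgroup G) :
    ((lcStep)^[k] N).map f = (lcStep)^[k] (N.map f) := by
  induction k generalizing N with
  | zero => rfl
  | succ k ih => simp only [Function.iterate_succ, Function.comp]; rw [ih, map_lcStep f hf]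

theorem commutator_subset_commProd (k : ℕ) :
    ∀ (P : Type _) [Group P] (N : Subgroup P) [N.Normal] (l : List P),
      Subgroup.closure {x | x ∈ l} = ⊤ → (lcStep)^[k] N = ⊥ →
        ((⁅N, (⊤ : Subgroup P)⁆ : Subgroup P) : Set P) ⊆ commProd N l := by
  induction k with
  | zero =>
    intro P _ N _ l hl hN
    have hN' : N = ⊥ := hN
    subst hN'
    rw [Subgroup.commutator_bot_left]
    rintro _ rfl
    exact one_mem_commProd _ _
  | succ k ih =>
    intro P _ N _ l hl hN
    rcases Nat.eq_zero_or_pos k with rfl | hk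
    · have hN' : ⁅N, (⊤ : Subgroup P)⁆ = ⊥ := hN
      rw [hN']
      rintro _ rfl
      exact one_mem_commProd _ _
    · obtain ⟨j, rfl⟩ : ∃ j, k = j + 1 := ⟨k - 1, by omega⟩
      set M' := (lcStep)^[j] N with hM'
      set M := (lcStep)^[j + 1] N with hM
      have hMM' : M = ⁅M', (⊤ : Subgroup P)⁆ := by
        rw [hM, Function.iterate_succ', Function.comp]; rfl
      have hMtop : ⁅M, (⊤ : Subgroup P)⁆ = ⊥ := by
        rw [Function.iterate_succ', Function.comp] at hN; exact hN
      have hMc : M ≤ Subgroup.center P := Subgroup.commutator_top_right_eq_bot_iff_le_center.1 hMtop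
      have hc : ∀ a ∈ M', ∀ x y : P, Commute ⁅a, x⁆ y := by
        intro a ha x y
        have : ⁅a, x⁆ ∈ M := by
          rw [hMM']; exact Subgroup.commutator_mem_commutator ha (Subgroup.mem_top x)
        exact ((Subgroup.mem_center_iff.1 (hMc this)) y).symm
      have hM'N : M' ≤ N := iterate_lcStep_le N j
      have hthree : ⁅⁅N, (⊤ : Subgroup P)⁆, M'⁆ = ⊥ := by
        apply Subgroup.commutator_commutator_eq_bot_of_rotate
        · -- ⁅⁅⊤, M'⁆, N⁆ = ⊥
          rw [Subgroup.commutator_comm ⊤ M', ← hMM', eq_bot_iff, ← hMtop]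
          exact Subgroup.commutator_mono le_rfl le_top
        · -- ⁅⁅M', N⁆, ⊤⁆ = ⊥
          rw [eq_bot_iff, ← hMtop]
          refine Subgroup.commutator_mono ?_ le_rfl
          rw [hMM']
          exact Subgroup.commutator_mono le_rfl le_top
      have hcc : ∀ a ∈ M', ∀ c ∈ (⁅N, (⊤ : Subgroup P)⁆ : Subgroup P), Commute a c := by
        intro a ha c hc'
        have : ⁅c, a⁆ ∈ (⁅⁅N, (⊤ : Subgroup P)⁆, M'⁆ : Subgroup P) :=
          Subgroup.commutator_mem_commutator hc' ha
        rw [hthree, Subgroup.mem_bot, commutatorElement_eq_one_iff_commute] at this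
        exact this.symm
      have hMsub := central_commutator_subset hc hl
      -- pass to the quotient
      let f := QuotientGroup.mk' M
      have hf : Function.Surjective f := QuotientGroup.mk'_surjective M
      have hNf : (N.map f).Normal := Subgroup.Normal.map inferInstance f hf
      have hlf : Subgroup.closure {x | x ∈ l.map f} = ⊤ := by
        have : {x | x ∈ l.map f} = f '' {x | x ∈ l} := by
          ext x; simp
        rw [this, ← MonoidHom.map_closure, hl, Subgroup.map_top_of_surjective f hf]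
      have hbot : (lcStep)^[j + 1] (N.map f) = ⊥ := by
        rw [← map_iterate_lcStep f hf, ← hM, Subgroup.map_eq_bot_iff, QuotientGroup.ker_mk']
      have key := ih (P ⧸ M) (N.map f) (l.map f) hlf hbot
      intro g hg
      have hfg : f g ∈ ((⁅N.map f, (⊤ : Subgroup (P ⧸ M))⁆ : Subgroup (P ⧸ M)) : Set (P ⧸ M)) := by
        have h1 : f g ∈ (⁅N, (⊤ : Subgroup P)⁆).map f := ⟨g, hg, rfl⟩
        rw [Subgroup.map_commutator, Subgroup.map_top_of_surjective f hf] at h1
        exact h1
      obtain ⟨y, hy, hyg⟩ := mem_commProd_map f N l _ (key hfg)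
      have hm : y⁻¹ * g ∈ M := by
        rw [← QuotientGroup.eq]; exact hyg
      rw [hMM'] at hm
      have := commProd_mul_mem hM'N hc hcc l y hy _ (hMsub hm)
      simpa using this

end Nilp

section NilpFinite

variable {G : Type*} [Group G]

theorem iterate_lcStep_le_lowerCentralSeries (N : Subgroup G) (k : ℕ) :
    (lcStep)^[k] N ≤ (⊤ : Subgroup G).lowerCentralSeries k := by
  induction k with
  | zero => simp
  | succ k ih =>
    rw [Function.iterate_succ', Function.comp, Subgroup.lowerCentralSeries_succ]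
    exact Subgroup.commutator_mono ih le_rfl

theorem exists_iterate_lcStep_eq_bot [Group.IsNilpotent G] (N : Subgroup G) :
    ∃ k, (lcStep)^[k] N = ⊥ := by
  obtain ⟨k, hk⟩ := Subgroup.nilpotent_iff_lowerCentralSeries.1 (inferInstance : Group.IsNilpotent G)
  exact ⟨k, le_bot_iff.1 (hk ▸ iterate_lcStep_le_lowerCentralSeries N k)⟩

end NilpFinite

section Top

variable {G : Type*} [Group G] [TopologicalSpace G] [IsTopologicalGroup G]

theorem isCompact_commProd {N : Subgroup G} (hN : IsCompact (N : Set G)) (l : List G) :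
    IsCompact (commProd N l) := by
  induction l with
  | nil => exact isCompact_singleton
  | cons x l ih =>
    have : commProd N (x :: l) = (fun z : G × G => ⁅z.1, x⁆ * z.2) '' ((N : Set G) ×ˢ commProd N l) := by
      ext g
      constructor
      · rintro ⟨n, hn, y, hy, rfl⟩
        exact ⟨(n, y), ⟨hn, hy⟩, rfl⟩
      · rintro ⟨⟨n, y⟩, ⟨hn, hy⟩, rfl⟩
        exact ⟨n, hn, y, hy, rfl⟩
    rw [this]
    refine (hN.prod ih).image ?_
    simp only [commutatorElement_def]
    fun_prop

theorem sup_eq_top_of_dense {H U : Subgroup G} (hH : H.topologicalClosure = ⊤)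
    (hU : IsOpen (U : Set G)) : H ⊔ U = ⊤ := by
  have h1 : IsOpen ((H ⊔ U : Subgroup G) : Set G) := Subgroup.isOpen_mono le_sup_right hU
  rw [eq_top_iff, ← hH]
  exact Subgroup.topologicalClosure_minimal _ le_sup_left (Subgroup.isClosed_of_isOpen _ h1)

variable [CompactSpace G]

theorem finiteIndex_of_open {U : Subgroup G} (hU : IsOpen (U : Set G)) : U.FiniteIndex := by
  have := Subgroup.quotient_finite_of_isOpen U hU
  exact Subgroup.finiteIndex_of_finite_quotient

theorem isPGroup_quotient {p : ℕ}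
    (hp : ∀ N : Subgroup G, N.Normal → IsOpen (N : Set G) → ∃ k, N.index = p ^ k)
    (U : Subgroup G) [U.Normal] (hU : IsOpen (U : Set G)) : IsPGroup p (G ⧸ U) := by
  obtain ⟨k, hk⟩ := hp U inferInstance hU
  exact IsPGroup.of_card (n := k) (by rw [← Subgroup.index_eq_card, hk])

variable [TotallyDisconnectedSpace G]

theorem exists_openNormal {X : Set G} (hX : IsClosed X) {g : G} (hg : g ∉ X) :
    ∃ U : Subgroup G, U.Normal ∧ IsOpen (U : Set G) ∧ ∀ x ∈ X, ∀ u ∈ U, x * u ≠ g := by
  have h1 : IsOpen {u : G | g * u⁻¹ ∈ Xᶜ} := by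
    apply hX.isOpen_compl.preimage
    fun_prop
  obtain ⟨U, hU⟩ := ProfiniteGrp.exist_openNormalSubgroup_sub_open_nhds_of_one h1
    (by simpa using hg)
  refine ⟨U.toSubgroup, inferInstance, U.isOpen', ?_⟩
  rintro x hx u hu rfl
  have := hU hu
  simp at this
  exact this hx

theorem iterate_star_le_of_open {p : ℕ} [Fact p.Prime]
    (hp : ∀ N : Subgroup G, N.Normal → IsOpen (N : Set G) → ∃ k, N.index = p ^ k)
    (U : Subgroup G) [U.Normal] (hU : IsOpen (U : Set G)) (k : ℕ) (hk : U.index ≤ k) :
    (starSub p)^[k] (⊤ : Subgroup G) ≤ U := by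
  have : Finite (G ⧸ U) := Subgroup.quotient_finite_of_isOpen U hU
  have hkb := iterate_star_eq_bot p _ (G ⧸ U) (isPGroup_quotient hp U hU) rfl k
    (by rwa [← Subgroup.index_eq_card])
  have h1 := map_iterate_star (QuotientGroup.mk' U) (QuotientGroup.mk'_surjective U) p k ⊤
  rw [Subgroup.map_top_of_surjective _ (QuotientGroup.mk'_surjective U), hkb,
    Subgroup.map_eq_bot_iff, QuotientGroup.ker_mk'] at h1
  exact h1

/-- the Frattini step -/
theorem le_of_le_star_sup {p : ℕ} [Fact p.Prime]
    (hp : ∀ N : Subgroup G, N.Normal → IsOpen (N : Set G) → ∃ k, N.index = p ^ k)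
    (A B : Subgroup G) [B.Normal] (hB : IsOpen (B : Set G))
    (h : A ≤ starSub p A ⊔ B) : A ≤ B := by
  have hfin : Finite (G ⧸ B) := Subgroup.quotient_finite_of_isOpen B hB
  obtain ⟨k, hk⟩ : ∃ k, (starSub p)^[k] (⊤ : Subgroup (G ⧸ B)) = ⊥ :=
    ⟨_, iterate_star_eq_bot p _ (G ⧸ B) (isPGroup_quotient hp B hB) rfl _ le_rfl⟩
  have hf := QuotientGroup.mk'_surjective B
  have h1 : A.map (QuotientGroup.mk' B) ≤ starSub p (A.map (QuotientGroup.mk' B)) := by
    rw [← map_starSub _ hf]
    refine (Subgroup.map_mono h).trans ?_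
    rw [Subgroup.map_sup]
    have : B.map (QuotientGroup.mk' B) = ⊥ := by
      rw [Subgroup.map_eq_bot_iff, QuotientGroup.ker_mk']
    rw [this, sup_bot_eq]
  have h2 : ∀ k, A.map (QuotientGroup.mk' B) ≤ (starSub p)^[k] (A.map (QuotientGroup.mk' B)) := by
    intro k
    induction k with
    | zero => simp
    | succ k ih =>
      rw [Function.iterate_succ', Function.comp]
      exact h1.trans (starSub_mono p ih)
  have h3 : A.map (QuotientGroup.mk' B) = ⊥ := by
    rw [eq_bot_iff, ← hk]
    exact (h2 k).trans (iterate_star_mono p k le_top)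
  rw [Subgroup.map_eq_bot_iff, QuotientGroup.ker_mk'] at h3
  exact h3

variable [T2Space G]

theorem commutator_eq_commProd {p : ℕ} [Fact p.Prime]
    (hp : ∀ N : Subgroup G, N.Normal → IsOpen (N : Set G) → ∃ k, N.index = p ^ k)
    {S : Finset G} (hS : (Subgroup.closure (S : Set G)).topologicalClosure = ⊤)
    (N : Subgroup G) [N.Normal] (hN : IsClosed (N : Set G)) :
    ((⁅N, (⊤ : Subgroup G)⁆ : Subgroup G) : Set G) = commProd N S.toList := by
  apply Set.Subset.antisymm _ (commProd_subset N _)
  intro g hg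
  by_contra hgX
  obtain ⟨U, hUn, hU, hUX⟩ :=
    exists_openNormal (isCompact_commProd hN.isCompact S.toList).isClosed hgX
  have hfin : Finite (G ⧸ U) := Subgroup.quotient_finite_of_isOpen U hU
  have hnil : Group.IsNilpotent (G ⧸ U) := (isPGroup_quotient hp U hU).isNilpotent
  let f := QuotientGroup.mk' U
  have hf : Function.Surjective f := QuotientGroup.mk'_surjective U
  have hNf : (N.map f).Normal := Subgroup.Normal.map inferInstance f hf
  obtain ⟨k, hk⟩ := exists_iterate_lcStep_eq_bot (N.map f)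
  have hlf : Subgroup.closure {x | x ∈ S.toList.map f} = ⊤ := by
    have : {x | x ∈ S.toList.map f} = f '' (S : Set G) := by
      ext x; simp
    rw [this, ← MonoidHom.map_closure]
    have h2 := sup_eq_top_of_dense hS hU
    have h3 : (Subgroup.closure (S : Set G) ⊔ U).map f = ⊤ := by
      rw [h2, Subgroup.map_top_of_surjective f hf]
    have h4 : U.map f = ⊥ := by
      rw [Subgroup.map_eq_bot_iff, QuotientGroup.ker_mk']
    rw [Subgroup.map_sup, h4, sup_bot_eq] at h3
    exact h3
  have key := commutator_subset_commProd k (G ⧸ U) (N.map f) (S.toList.map f) hlf hk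
  have hfg : f g ∈ ((⁅N.map f, (⊤ : Subgroup (G ⧸ U))⁆ : Subgroup (G ⧸ U)) : Set (G ⧸ U)) := by
    have h1 : f g ∈ (⁅N, (⊤ : Subgroup G)⁆).map f := ⟨g, hg, rfl⟩
    rw [Subgroup.map_commutator, Subgroup.map_top_of_surjective f hf] at h1
    exact h1
  obtain ⟨y, hy, hyg⟩ := mem_commProd_map f N S.toList _ (key hfg)
  have hm : y⁻¹ * g ∈ U := by
    rw [← QuotientGroup.eq]; exact hyg
  exact hUX y hy _ hm (by group)

theorem isClosed_commutator {p : ℕ} [Fact p.Prime]
    (hp : ∀ N : Subgroup G, N.Normal → IsOpen (N : Set G) → ∃ k, N.index = p ^ k)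
    {S : Finset G} (hS : (Subgroup.closure (S : Set G)).topologicalClosure = ⊤)
    (N : Subgroup G) [N.Normal] (hN : IsClosed (N : Set G)) :
    IsClosed ((⁅N, (⊤ : Subgroup G)⁆ : Subgroup G) : Set G) := by
  rw [commutator_eq_commProd hp hS N hN]
  exact (isCompact_commProd hN.isCompact S.toList).isClosed

end Top

section IndexBound

variable {G : Type*} [Group G]

theorem normal_of_le_zSub {p : ℕ} {W X : Subgroup G} [W.Normal] (h1 : W ≤ X) (h2 : X ≤ zSub p W) :
    X.Normal := by
  refine ⟨fun x hx g => ?_⟩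
  have : g * x * g⁻¹ = ⁅x, g⁆⁻¹ * x := by
    simp only [commutatorElement_def]; group
  rw [this]
  exact X.mul_mem (X.inv_mem (h1 ((h2 hx).2 g))) hx

theorem le_zSub {p : ℕ} {W : Subgroup G} [hW : W.Normal] : W ≤ zSub p W := by
  intro w hw
  refine ⟨W.pow_mem hw p, fun g => ?_⟩
  have : ⁅w, g⁆ = w * (g * w⁻¹ * g⁻¹) := by simp only [commutatorElement_def]; group
  rw [this]
  exact W.mul_mem hw (hW.conj_mem _ (W.inv_mem hw) g)

theorem relIndex_sup_zpowers_dvd {p : ℕ} (X : Subgroup G) [X.Normal] {s : G} (hs : s ^ p ∈ X) :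
    X.relIndex (X ⊔ Subgroup.zpowers s) ∣ p := by
  rw [Subgroup.relIndex_sup_left]
  have h1 := Subgroup.relIndex_ker (K := Subgroup.zpowers s) (QuotientGroup.mk' X)
  rw [QuotientGroup.ker_mk'] at h1
  rw [h1, MonoidHom.map_zpowers, Nat.card_zpowers]
  apply orderOf_dvd_of_pow_eq_one
  rw [← map_pow]
  exact (QuotientGroup.eq_one_iff _).2 hs

theorem relIndex_closure_dvd {p : ℕ} (W : Subgroup G) [W.Normal] (T : Finset G)
    (hT : (T : Set G) ⊆ zSub p W) :
    W.relIndex (Subgroup.closure (T : Set G) ⊔ W) ∣ p ^ T.card := by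
  classical
  induction T using Finset.induction_on with
  | empty => simp
  | insert s T hsT ih =>
    have hT' : (T : Set G) ⊆ zSub p W := fun x hx => hT (by simp [Finset.mem_coe.1 hx])
    have hs : s ∈ zSub p W := hT (by simp)
    specialize ih hT'
    set X := Subgroup.closure (T : Set G) ⊔ W with hX
    have hXz : X ≤ zSub p W := sup_le ((Subgroup.closure_le _).2 hT') le_zSub
    have hXn : X.Normal := normal_of_le_zSub le_sup_right hXz
    have h1 : Subgroup.closure ((insert s T : Finset G) : Set G) ⊔ W = X ⊔ Subgroup.zpowers s := by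
      rw [Finset.coe_insert, ← Set.singleton_union, Subgroup.closure_union, hX,
        Subgroup.zpowers_eq_closure, sup_assoc, sup_comm]
    rw [h1, ← Subgroup.relIndex_mul_relIndex W X (X ⊔ Subgroup.zpowers s) le_sup_right le_sup_left,
      Finset.card_insert_of_notMem hsT, pow_succ]
    exact mul_dvd_mul ih (relIndex_sup_zpowers_dvd X (le_sup_right (a := Subgroup.closure (T : Set G))
      (hs.1)))

/-- the elements of `N^p [N,G]` are the `n^p c` -/
theorem mem_starSub_iff {p : ℕ} (N : Subgroup G) [N.Normal] (x : G) :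
    x ∈ starSub p N ↔ ∃ n ∈ N, ∃ c ∈ (⁅N, (⊤ : Subgroup G)⁆ : Subgroup G), n ^ p * c = x := by
  constructor
  · intro hx
    set K : Subgroup G := ⁅N, (⊤ : Subgroup G)⁆ with hK
    let φ : N →* G ⧸ K :=
      { toFun := fun n => (QuotientGroup.mk' K (n : G)) ^ p
        map_one' := by simp
        map_mul' := by
          intro a b
          have : Commute (QuotientGroup.mk' K (a : G)) (QuotientGroup.mk' K (b : G)) := by
            rw [← commutatorElement_eq_one_iff_commute, ← map_commutatorElement]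
            exact (QuotientGroup.eq_one_iff _).2
              (Subgroup.commutator_mem_commutator a.2 (Subgroup.mem_top _))
          rw [Subgroup.coe_mul, map_mul, this.mul_pow] }
    have h1 : starSub p N ≤ φ.range.comap (QuotientGroup.mk' K) := by
      unfold starSub
      rw [sup_le_iff, Subgroup.closure_le]
      refine ⟨?_, ?_⟩
      · rintro _ ⟨n, hn, rfl⟩
        exact ⟨⟨n, hn⟩, by simp [φ]⟩
      · intro c hc
        refine ⟨1, ?_⟩
        rw [map_one]
        exact ((QuotientGroup.eq_one_iff _).2 hc).symm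
    obtain ⟨n, hn⟩ := h1 hx
    refine ⟨n, n.2, ((n : G) ^ p)⁻¹ * x, ?_, by group⟩
    rw [← QuotientGroup.eq]
    have h2 : (QuotientGroup.mk' K) ((n : G) ^ p) = QuotientGroup.mk' K x := by
      rw [map_pow]; exact hn
    exact h2
  · rintro ⟨n, hn, c, hc, rfl⟩
    exact Subgroup.mul_mem _ (pow_mem_starSub p hn) (commutator_le_starSub p N hc)

end IndexBound

section Top2

variable {G : Type*} [Group G] [TopologicalSpace G] [IsTopologicalGroup G] [CompactSpace G]
  [TotallyDisconnectedSpace G] [T2Space G]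

theorem isClosed_starSub {p : ℕ} [Fact p.Prime]
    (hp : ∀ N : Subgroup G, N.Normal → IsOpen (N : Set G) → ∃ k, N.index = p ^ k)
    {S : Finset G} (hS : (Subgroup.closure (S : Set G)).topologicalClosure = ⊤)
    (N : Subgroup G) [N.Normal] (hN : IsClosed (N : Set G)) :
    IsClosed ((starSub p N : Subgroup G) : Set G) := by
  have h1 : ((starSub p N : Subgroup G) : Set G) = (fun z : G × G => z.1 ^ p * z.2) ''
      ((N : Set G) ×ˢ ((⁅N, (⊤ : Subgroup G)⁆ : Subgroup G) : Set G)) := by
    ext x
    constructor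
    · intro hx
      obtain ⟨n, hn, c, hc, rfl⟩ := (mem_starSub_iff N x).1 hx
      exact ⟨(n, c), ⟨hn, hc⟩, rfl⟩
    · rintro ⟨⟨n, c⟩, ⟨hn, hc⟩, rfl⟩
      exact (mem_starSub_iff N _).2 ⟨n, hn, c, hc, rfl⟩
  rw [h1]
  refine ((hN.isCompact.prod (isClosed_commutator hp hS N hN).isCompact).image ?_).isClosed
  fun_prop

theorem exists_finset_closure_dense {S : Finset G}
    (hS : (Subgroup.closure (S : Set G)).topologicalClosure = ⊤)
    (N : Subgroup G) (hN : IsOpen (N : Set G)) :
    ∃ T : Finset G, (T : Set G) ⊆ N ∧ N ≤ (Subgroup.closure (T : Set G)).topologicalClosure := by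
  have hfi : N.FiniteIndex := finiteIndex_of_open hN
  set Γ := Subgroup.closure (S : Set G) with hΓ
  have hFG : Group.FG Γ := by
    rw [Group.fg_iff_subgroup_fg]
    exact ⟨S, rfl⟩
  have h2 : Group.FG (N.subgroupOf Γ) := Subgroup.fg_of_index_ne_zero _
  rw [Group.fg_iff_subgroup_fg] at h2
  obtain ⟨T', hT'⟩ := h2
  classical
  obtain ⟨T, hT⟩ : ∃ T : Finset G, Subgroup.closure (T : Set G) = Γ ⊓ N := by
    refine ⟨T'.image Γ.subtype, ?_⟩
    rw [Finset.coe_image, ← MonoidHom.map_closure, hT', Subgroup.subgroupOf_map_subtype, inf_comm]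
  refine ⟨T, ?_, ?_⟩
  · intro x hx
    have : x ∈ Subgroup.closure (T : Set G) := Subgroup.subset_closure hx
    rw [hT] at this
    exact this.2
  · rw [hT]
    intro x hx
    have h4 : x ∈ (N : Set G) ∩ _root_.closure (Γ : Set G) := by
      refine ⟨hx, ?_⟩
      rw [← Subgroup.topologicalClosure_coe, hS]
      trivial
    have h5 := hN.inter_closure h4
    rw [Set.inter_comm] at h5
    exact h5

theorem isOpen_starSub {p : ℕ} [Fact p.Prime]
    (hp : ∀ N : Subgroup G, N.Normal → IsOpen (N : Set G) → ∃ k, N.index = p ^ k)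
    {S : Finset G} (hS : (Subgroup.closure (S : Set G)).topologicalClosure = ⊤)
    (N : Subgroup G) [N.Normal] (hN : IsOpen (N : Set G)) :
    IsOpen ((starSub p N : Subgroup G) : Set G) := by
  have hcl : IsClosed ((starSub p N : Subgroup G) : Set G) :=
    isClosed_starSub hp hS N (Subgroup.isClosed_of_isOpen _ hN)
  obtain ⟨T, hTN, hT⟩ := exists_finset_closure_dense hS N hN
  set W := starSub p N with hW
  have hNz : N ≤ zSub p W := starSub_le_iff.1 le_rfl
  set X := Subgroup.closure (T : Set G) ⊔ W with hX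
  have hdvd : W.relIndex X ∣ p ^ T.card := relIndex_closure_dvd W T (hTN.trans hNz)
  have hne : W.relIndex X ≠ 0 := by
    intro h0
    rw [h0, zero_dvd_iff] at hdvd
    exact (pow_ne_zero _ (Fact.out : p.Prime).ne_zero) hdvd
  -- X is closed
  have hXfin : (((X.map (QuotientGroup.mk' W) : Subgroup (G ⧸ W)) : Set (G ⧸ W))).Finite := by
    have h1 := Subgroup.relIndex_ker (K := X) (QuotientGroup.mk' W)
    rw [QuotientGroup.ker_mk'] at h1
    rw [h1] at hne
    have := Nat.finite_of_card_ne_zero hne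
    exact Set.toFinite _
  have hXcl : IsClosed (X : Set G) := by
    have hcl' : IsClosed (W : Set G) := hcl
    have h1 : (X : Set G) = (QuotientGroup.mk' W) ⁻¹'
        ((X.map (QuotientGroup.mk' W) : Subgroup (G ⧸ W)) : Set (G ⧸ W)) := by
      rw [← Subgroup.coe_comap, Subgroup.comap_map_eq, QuotientGroup.ker_mk',
        sup_eq_left.2 (le_sup_right : W ≤ X)]
    rw [h1]
    exact hXfin.isClosed.preimage QuotientGroup.continuous_mk
  have hNX : N ≤ X :=
    hT.trans (Subgroup.topologicalClosure_minimal _ le_sup_left hXcl)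
  have hfi : N.FiniteIndex := finiteIndex_of_open hN
  have hXfi : X.FiniteIndex := Subgroup.finiteIndex_of_le hNX
  have hWfi : W.FiniteIndex := by
    refine ⟨?_⟩
    rw [← Subgroup.relIndex_mul_index (le_sup_right : W ≤ X)]
    exact mul_ne_zero hne hXfi.index_ne_zero
  exact Subgroup.isOpen_of_isClosed_of_finiteIndex _ hcl

end Top2

section Rank

variable {G : Type*} [Group G] [TopologicalSpace G] [IsTopologicalGroup G] [CompactSpace G]
  [TotallyDisconnectedSpace G] [T2Space G]

theorem exists_finset_sup {p : ℕ} [hp : Fact p.Prime] {G : Type*} [Group G] (N : Subgroup G)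
    (j : ℕ) : ∀ X : Subgroup G, X ≤ N → X.relIndex N = p ^ j →
      ∃ T : Finset G, T.card ≤ j ∧ (T : Set G) ⊆ N ∧ Subgroup.closure (T : Set G) ⊔ X = N := by
  classical
  induction j using Nat.strong_induction_on with
  | _ j ih =>
    intro X hXN hj
    by_cases hNX : N ≤ X
    · exact ⟨∅, by simp, by simp, by simp [le_antisymm hXN hNX]⟩
    · obtain ⟨s, hsN, hsX⟩ := Set.not_subset.1 hNX
      set X' := Subgroup.zpowers s ⊔ X with hX'
      have hX'N : X' ≤ N := sup_le (by rwa [Subgroup.zpowers_le]) hXN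
      have hmul : X.relIndex X' * X'.relIndex N = X.relIndex N :=
        Subgroup.relIndex_mul_relIndex X X' N le_sup_right hX'N
      have hdvd : X'.relIndex N ∣ p ^ j := ⟨X.relIndex X', by rw [mul_comm, hmul, hj]⟩
      obtain ⟨i, hij, hi⟩ := (Nat.dvd_prime_pow hp.out).1 hdvd
      have hne : X.relIndex X' ≠ 1 := by
        rw [Ne, Subgroup.relIndex_eq_one]
        intro h
        exact hsX (h ((le_sup_left : _ ≤ X') (Subgroup.mem_zpowers s)))
      have hlt : i < j := by
        rcases lt_or_eq_of_le hij with h | h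
        · exact h
        · exfalso
          apply hne
          have h0 : 0 < p ^ j := pow_pos hp.out.pos j
          rw [hi, h, hj] at hmul
          exact Nat.eq_of_mul_eq_mul_right h0 (by rw [hmul, one_mul])
      obtain ⟨T, hTc, hTN, hT⟩ := ih i hlt X' hX'N hi
      refine ⟨insert s T, ?_, ?_, ?_⟩
      · exact (Finset.card_insert_le _ _).trans (by omega)
      · rw [Finset.coe_insert]
        exact Set.insert_subset hsN hTN
      · rw [Finset.coe_insert, ← Set.singleton_union, Subgroup.closure_union,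
          ← Subgroup.zpowers_eq_closure, ← hT, hX', ← sup_assoc,
          sup_comm (Subgroup.zpowers s) (Subgroup.closure (T : Set G))]

theorem card_ge_of_generates {p : ℕ} [Fact p.Prime]
    (hp : ∀ N : Subgroup G, N.Normal → IsOpen (N : Set G) → ∃ k, N.index = p ^ k)
    {S : Finset G} (hS : (Subgroup.closure (S : Set G)).topologicalClosure = ⊤)
    (N : Subgroup G) [N.Normal] (hN : IsOpen (N : Set G)) {m : ℕ}
    (hm : (starSub p N).relIndex N = p ^ m) (T : Finset G)
    (hT : (Subgroup.normalClosure (T : Set G)).topologicalClosure = N) : m ≤ T.card := by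
  have hopen := isOpen_starSub hp hS N hN
  set W := starSub p N with hW
  have hNz : N ≤ zSub p W := starSub_le_iff.1 le_rfl
  have hTN : (T : Set G) ⊆ N := by
    intro x hx
    rw [← hT]
    exact Subgroup.le_topologicalClosure _ (Subgroup.subset_normalClosure hx)
  have hTz : (T : Set G) ⊆ zSub p W := hTN.trans hNz
  set X := Subgroup.closure (T : Set G) ⊔ W with hX
  have hXz : X ≤ zSub p W := sup_le ((Subgroup.closure_le _).2 hTz) le_zSub
  have hXn : X.Normal := normal_of_le_zSub le_sup_right hXz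
  have hXo : IsOpen (X : Set G) := Subgroup.isOpen_mono le_sup_right hopen
  have hNX : N ≤ X := by
    rw [← hT]
    refine Subgroup.topologicalClosure_minimal _ ?_ (Subgroup.isClosed_of_isOpen _ hXo)
    exact Subgroup.normalClosure_le_normal (Subgroup.subset_closure.trans (le_sup_left : _ ≤ X))
  have hXN : X ≤ N := sup_le ((Subgroup.closure_le _).2 hTN) (starSub_le p N)
  have hXeq : X = N := le_antisymm hXN hNX
  have hdvd := relIndex_closure_dvd W T hTz
  rw [← hX, hXeq, hm] at hdvd
  exact (Nat.pow_dvd_pow_iff_le_right (Fact.out : p.Prime).one_lt).1 hdvd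

theorem exists_generating {p : ℕ} [Fact p.Prime]
    (hp : ∀ N : Subgroup G, N.Normal → IsOpen (N : Set G) → ∃ k, N.index = p ^ k)
    (N : Subgroup G) [N.Normal] (hN : IsOpen (N : Set G)) {m : ℕ}
    (hm : (starSub p N).relIndex N = p ^ m) :
    ∃ T : Finset G, T.card ≤ m ∧ (Subgroup.normalClosure (T : Set G)).topologicalClosure = N := by
  obtain ⟨T, hTc, hTN, hT⟩ := exists_finset_sup N m (starSub p N) (starSub_le p N) hm
  refine ⟨T, hTc, ?_⟩
  set L := (Subgroup.normalClosure (T : Set G)).topologicalClosure with hL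
  have hLn : L.Normal := Subgroup.is_normal_topologicalClosure _
  have hLN : L ≤ N := Subgroup.topologicalClosure_minimal _
    (Subgroup.normalClosure_le_normal hTN) (Subgroup.isClosed_of_isOpen _ hN)
  refine le_antisymm hLN ?_
  intro x hx
  by_contra hxL
  obtain ⟨U, hUn, hU, hUX⟩ := exists_openNormal (Subgroup.isClosed_topologicalClosure _) hxL
  have hB : IsOpen ((L ⊔ U : Subgroup G) : Set G) := Subgroup.isOpen_mono le_sup_right hU
  have hle : N ⊔ U ≤ starSub p (N ⊔ U) ⊔ (L ⊔ U) := by
    refine sup_le ?_ (le_sup_right.trans le_sup_right)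
    rw [← hT]
    refine sup_le ?_ ?_
    · refine le_trans ?_ (le_sup_left.trans le_sup_right)
      refine (Subgroup.closure_le _).2 ?_
      exact Subgroup.subset_normalClosure.trans (Subgroup.le_topologicalClosure _)
    · rw [hT]
      exact (starSub_mono p le_sup_left).trans le_sup_left
  have h1 := le_of_le_star_sup hp (N ⊔ U) (L ⊔ U) hB hle
  have h2 : x ∈ L ⊔ U := h1 ((le_sup_left : N ≤ N ⊔ U) hx)
  obtain ⟨y, hy, u, hu, hyu⟩ := Subgroup.mem_sup_of_normal_left.1 h2
  exact hUX y hy u hu hyu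

theorem relIndex_star_eq_pow_dG {p : ℕ} [Fact p.Prime]
    (hp : ∀ N : Subgroup G, N.Normal → IsOpen (N : Set G) → ∃ k, N.index = p ^ k)
    {S : Finset G} (hS : (Subgroup.closure (S : Set G)).topologicalClosure = ⊤)
    (N : Subgroup G) [N.Normal] (hN : IsOpen (N : Set G)) :
    (starSub p N).relIndex N = p ^ dG N := by
  obtain ⟨k, hk⟩ := hp (starSub p N) inferInstance (isOpen_starSub hp hS N hN)
  have h1 : (starSub p N).relIndex N ∣ p ^ k := by
    rw [← hk]
    exact Subgroup.relIndex_dvd_index_of_le (starSub_le p N)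
  obtain ⟨m, -, hm⟩ := (Nat.dvd_prime_pow (Fact.out : p.Prime)).1 h1
  rw [hm]
  congr 1
  obtain ⟨T, hTc, hT⟩ := exists_generating hp N hN hm
  apply le_antisymm
  · refine le_csInf ⟨_, T, rfl, hT⟩ ?_
    rintro _ ⟨T', rfl, hT'⟩
    exact card_ge_of_generates hp hS N hN hm T' hT'
  · have h2 : dG N ≤ T.card := Nat.sInf_le ⟨T, rfl, hT⟩
    exact h2.trans hTc

end Rank

section Main

variable {G : Type*} [Group G]

theorem finite_subgroups_above (K : Subgroup G) [K.Normal] [K.FiniteIndex] :
    {A : Subgroup G | K ≤ A}.Finite := by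
  have : Finite (G ⧸ K) := K.finite_quotient_of_finiteIndex
  refine Set.Finite.of_injOn (f := fun A => A.map (QuotientGroup.mk' K)) (t := Set.univ)
    (fun _ _ => Set.mem_univ _) ?_ Set.finite_univ
  intro A hA B hB hAB
  have h1 := congrArg (Subgroup.comap (QuotientGroup.mk' K)) hAB
  simp only [Subgroup.comap_map_eq, QuotientGroup.ker_mk'] at h1
  rwa [sup_eq_left.2 hA, sup_eq_left.2 hB] at h1

variable [TopologicalSpace G] [IsTopologicalGroup G] [CompactSpace G]
  [TotallyDisconnectedSpace G] [T2Space G]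

theorem iterate_star_normal_open {p : ℕ} [Fact p.Prime]
    (hp : ∀ N : Subgroup G, N.Normal → IsOpen (N : Set G) → ∃ k, N.index = p ^ k)
    {S : Finset G} (hS : (Subgroup.closure (S : Set G)).topologicalClosure = ⊤) (k : ℕ) :
    ((starSub p)^[k] (⊤ : Subgroup G)).Normal ∧
      IsOpen (((starSub p)^[k] (⊤ : Subgroup G) : Subgroup G) : Set G) := by
  induction k with
  | zero => exact ⟨(inferInstance : (⊤ : Subgroup G).Normal), by simp⟩
  | succ k ih =>
    rw [Function.iterate_succ', Function.comp]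
    have := ih.1
    exact ⟨inferInstance, isOpen_starSub hp hS _ ih.2⟩

theorem iterate_star_map {p : ℕ} (k : ℕ) (φ : G ≃* G) :
    ((starSub p)^[k] (⊤ : Subgroup G)).map φ.toMonoidHom = (starSub p)^[k] (⊤ : Subgroup G) := by
  rw [map_iterate_star _ φ.surjective, Subgroup.map_top_of_surjective _ φ.surjective]

/-- `d_G` is supermodular on open normal subgroups -/
theorem dG_supermodular {p : ℕ} [Fact p.Prime]
    (hp : ∀ N : Subgroup G, N.Normal → IsOpen (N : Set G) → ∃ k, N.index = p ^ k)
    {S : Finset G} (hS : (Subgroup.closure (S : Set G)).topologicalClosure = ⊤)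
    (A B : Subgroup G) [A.Normal] [B.Normal] (hA : IsOpen (A : Set G)) (hB : IsOpen (B : Set G)) :
    dG A + dG B ≤ dG (A ⊔ B) + dG (A ⊓ B) := by
  have hsup : IsOpen ((A ⊔ B : Subgroup G) : Set G) := Subgroup.isOpen_mono le_sup_left hA
  have hinf : IsOpen ((A ⊓ B : Subgroup G) : Set G) := by
    rw [Subgroup.coe_inf]; exact hA.inter hB
  have hidx : ∀ N : Subgroup G, N.Normal → IsOpen (N : Set G) →
      (starSub p N).index = p ^ dG N * N.index := by
    intro N hNn hN
    rw [← Subgroup.relIndex_mul_index (starSub_le p N), relIndex_star_eq_pow_dG hp hS N hN]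
  have hfi : (starSub p (A ⊓ B)).FiniteIndex := finiteIndex_of_open (isOpen_starSub hp hS _ hinf)
  have h1 := index_star_mul_le p A B
  rw [hidx A inferInstance hA, hidx B inferInstance hB, hidx _ inferInstance hsup,
    hidx _ inferInstance hinf] at h1
  have h2 := index_mul_index A B
  have hAfi : A.FiniteIndex := finiteIndex_of_open hA
  have hBfi : B.FiniteIndex := finiteIndex_of_open hB
  have hpos : 0 < A.index * B.index :=
    Nat.mul_pos (Nat.pos_of_ne_zero hAfi.index_ne_zero) (Nat.pos_of_ne_zero hBfi.index_ne_zero)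
  have h3 : p ^ (dG A + dG B) * (A.index * B.index) ≤
      p ^ (dG (A ⊔ B) + dG (A ⊓ B)) * (A.index * B.index) := by
    calc p ^ (dG A + dG B) * (A.index * B.index)
        = p ^ dG A * A.index * (p ^ dG B * B.index) := by rw [pow_add]; ring
      _ ≤ _ := h1
      _ = p ^ (dG (A ⊔ B) + dG (A ⊓ B)) * (A.index * B.index) := by rw [h2, pow_add]; ring
  exact (Nat.pow_le_pow_iff_right (Fact.out : p.Prime).one_lt).1 (Nat.le_of_mul_le_mul_right h3 hpos)

theorem dG_map {p : ℕ} [Fact p.Prime]
    (hp : ∀ N : Subgroup G, N.Normal → IsOpen (N : Set G) → ∃ k, N.index = p ^ k)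
    {S : Finset G} (hS : (Subgroup.closure (S : Set G)).topologicalClosure = ⊤)
    (N : Subgroup G) [N.Normal] (hN : IsOpen (N : Set G)) (φ : G ≃* G)
    (hφ : IsOpen ((N.map φ.toMonoidHom : Subgroup G) : Set G)) :
    dG (N.map φ.toMonoidHom) = dG N := by
  have : (N.map φ.toMonoidHom).Normal := Subgroup.Normal.map inferInstance _ φ.surjective
  have h1 := relIndex_star_eq_pow_dG hp hS N hN
  have h2 := relIndex_star_eq_pow_dG hp hS (N.map φ.toMonoidHom) hφ
  rw [← map_starSub _ φ.surjective, Subgroup.relIndex_map_map_of_injective _ _ φ.injective, h1] at h2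
  exact (Nat.pow_right_injective (Fact.out : p.Prime).two_le h2).symm

theorem exists_characteristic {p : ℕ} [Fact p.Prime]
    (hp : ∀ N : Subgroup G, N.Normal → IsOpen (N : Set G) → ∃ k, N.index = p ^ k)
    {S : Finset G} (hS : (Subgroup.closure (S : Set G)).topologicalClosure = ⊤)
    (N : Subgroup G) [N.Normal] (hN : IsOpen (N : Set G)) (ε : ℝ) :
    ∃ C : Subgroup G, C.Characteristic ∧ IsOpen (C : Set G) ∧
      (dG N : ℝ) - ε * Real.logb p N.index ≤ (dG C : ℝ) - ε * Real.logb p C.index := by
  set F : Subgroup G → ℝ := fun A => (dG A : ℝ) - ε * Real.logb p A.index with hF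
  set K := (starSub p)^[N.index] (⊤ : Subgroup G) with hK
  obtain ⟨hKn, hKo⟩ := iterate_star_normal_open hp hS N.index
  have hKN : K ≤ N := iterate_star_le_of_open hp N hN _ le_rfl
  have hKfi : K.FiniteIndex := finiteIndex_of_open hKo
  have hopen : ∀ A : Subgroup G, K ≤ A → IsOpen (A : Set G) := fun A hA =>
    Subgroup.isOpen_mono hA hKo
  set L : Set (Subgroup G) := {A | K ≤ A ∧ A.Normal} with hL
  have hLfin : L.Finite := (finite_subgroups_above K).subset fun A hA => hA.1
  have hNL : N ∈ L := ⟨hKN, inferInstance⟩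
  -- the maximum of F
  obtain ⟨A₀, hA₀, hmax⟩ := Set.exists_max_image L F hLfin ⟨N, hNL⟩
  set L' : Set (Subgroup G) := {A | A ∈ L ∧ F A = F A₀} with hL'
  have hL'fin : L'.Finite := hLfin.subset fun A hA => hA.1
  obtain ⟨C, hC, hmin⟩ := Set.exists_min_image L' (fun A => A.index) hL'fin ⟨A₀, hA₀, rfl⟩
  obtain ⟨⟨hKC, hCn⟩, hCF⟩ := hC
  refine ⟨C, ?_, hopen C hKC, ?_⟩
  · rw [Subgroup.characteristic_iff_map_le]
    intro φ
    set D := C.map φ.toMonoidHom with hD
    have hDn : D.Normal := Subgroup.Normal.map hCn _ φ.surjective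
    have hKD : K ≤ D := by
      calc K = K.map φ.toMonoidHom := (iterate_star_map (p := p) N.index φ).symm
        _ ≤ D := Subgroup.map_mono hKC
    have hDidx : D.index = C.index := by
      rw [hD]; exact Subgroup.index_map_of_bijective φ.bijective C
    have hDF : F D = F C := by
      simp only [hF]
      rw [hDidx, hD, dG_map hp hS C (hopen C hKC) φ (hopen _ hKD)]
    have hsupL : C ⊔ D ∈ L := ⟨hKC.trans le_sup_left, inferInstance⟩
    have hinfL : C ⊓ D ∈ L := ⟨le_inf hKC hKD, inferInstance⟩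
    have hsm := dG_supermodular hp hS C D (hopen C hKC) (hopen D hKD)
    have hsm' : (dG C : ℝ) + dG D ≤ dG (C ⊔ D) + dG (C ⊓ D) := by exact_mod_cast hsm
    have hne : ∀ A : Subgroup G, K ≤ A → (A.index : ℝ) ≠ 0 := by
      intro A hA
      have := finiteIndex_of_open (hopen A hA)
      exact_mod_cast this.index_ne_zero
    have hlog : Real.logb p C.index + Real.logb p D.index =
        Real.logb p (C ⊔ D).index + Real.logb p (C ⊓ D).index := by
      rw [← Real.logb_mul (hne _ hKC) (hne _ hKD), ← Real.logb_mul (hne _ hsupL.1) (hne _ hinfL.1)]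
      congr 1
      exact_mod_cast index_mul_index C D
    have hFF : F C + F D ≤ F (C ⊔ D) + F (C ⊓ D) := by
      simp only [hF]
      have h4 : ε * Real.logb p C.index + ε * Real.logb p D.index =
        ε * Real.logb p (C ⊔ D).index + ε * Real.logb p (C ⊓ D).index := by
        rw [← mul_add, ← mul_add, hlog]
      linarith
    have h5 := hmax _ hsupL
    have h6 := hmax _ hinfL
    have h7 : F (C ⊔ D) = F A₀ := by
      apply le_antisymm h5
      linarith
    have h8 := hmin (C ⊔ D) ⟨hsupL, h7⟩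
    have hCfi : C.FiniteIndex := finiteIndex_of_open (hopen C hKC)
    by_contra hDC
    have hlt : C < C ⊔ D := by
      refine lt_of_le_of_ne le_sup_left ?_
      intro h
      apply hDC
      rw [h]
      exact le_sup_right
    exact absurd h8 (not_le.2 (Subgroup.index_strictAnti hlt))
  · have := hmax N hNL
    rw [← hCF] at this
    exact this

end Main

/-- **Main theorem** (negative answer to Q1).  Let `p` be a prime and `G` a topologically finitely
generated pro-`p` group.  If infinitely many open normal subgroups `N` of `G` satisfy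
`d_G(N) ≥ c log_p (G : N)`, then for every `ε < c` there are infinitely many proper open subgroups
`C`, invariant under all (abstract) automorphisms of `G`, with `d_G(C) ≥ ε log_p (G : C)`. -/
theorem result (p : ℕ) [hpr : Fact p.Prime] (G : Type*) [Group G] [TopologicalSpace G]
    [IsTopologicalGroup G] [CompactSpace G] [T2Space G] [TotallyDisconnectedSpace G]
    (hpro : ∀ N : Subgroup G, N.Normal → IsOpen (N : Set G) → ∃ k : ℕ, N.index = p ^ k)
    (hfg : ∃ S : Finset G, (Subgroup.closure (S : Set G)).topologicalClosure = ⊤)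
    (c : ℝ)
    (hi : {N : Subgroup G | N.Normal ∧ IsOpen (N : Set G) ∧
      c * Real.logb p N.index ≤ dG N}.Infinite)
    (ε : ℝ) (hε : ε < c) :
    {C : Subgroup G | C.Characteristic ∧ IsOpen (C : Set G) ∧ C ≠ ⊤ ∧
      ε * Real.logb p C.index ≤ dG C}.Infinite := by
  obtain ⟨S, hS⟩ := hfg
  intro hfin
  set F : Subgroup G → ℝ := fun A => (dG A : ℝ) - ε * Real.logb p A.index with hF
  set 𝒞 := {C : Subgroup G | C.Characteristic ∧ IsOpen (C : Set G) ∧ C ≠ ⊤ ∧
      ε * Real.logb p C.index ≤ dG C} with h𝒞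
  have hp1 : (1 : ℝ) < p := by exact_mod_cast hpr.out.one_lt
  have hfin' : (insert ⊤ 𝒞).Finite := hfin.insert ⊤
  obtain ⟨B, hB, hBmax⟩ := Set.exists_max_image (insert ⊤ 𝒞) F hfin' ⟨⊤, Set.mem_insert _ _⟩
  -- a bound `n` on the index
  obtain ⟨n, hn⟩ := exists_nat_gt (F B / (c - ε))
  have hnfin : {N : Subgroup G | N.Normal ∧ IsOpen (N : Set G) ∧ N.index ≤ p ^ n}.Finite := by
    obtain ⟨hKn, hKo⟩ := iterate_star_normal_open hpro hS (p ^ n)
    have hKfi := finiteIndex_of_open hKo
    refine (finite_subgroups_above ((starSub p)^[p ^ n] (⊤ : Subgroup G))).subset ?_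
    rintro N ⟨hNn, hNo, hNi⟩
    exact iterate_star_le_of_open hpro N hNo _ hNi
  obtain ⟨N, ⟨hNn, hNo, hNc⟩, hN2⟩ := hi.exists_notMem_finite hnfin
  have hidx : p ^ n < N.index := by
    by_contra h
    exact hN2 ⟨hNn, hNo, not_lt.1 h⟩
  have hlog : (n : ℝ) < Real.logb p N.index := by
    rw [Real.lt_logb_iff_rpow_lt hp1 (by exact_mod_cast (lt_of_le_of_lt (Nat.zero_le _) hidx)),
      Real.rpow_natCast]
    exact_mod_cast hidx
  have hFN : F B < F N := by
    have h1 : F B < (c - ε) * Real.logb p N.index := by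
      have h2 : 0 < c - ε := by linarith
      have h3 : F B / (c - ε) < Real.logb p N.index := hn.trans hlog
      rwa [div_lt_iff₀' h2] at h3
    simp only [hF] at h1 ⊢
    nlinarith
  obtain ⟨C, hCc, hCo, hCF⟩ := exists_characteristic hpro hS N hNo ε
  have hFC : F B < F C := lt_of_lt_of_le hFN hCF
  have hFtop : 0 ≤ F ⊤ := by
    simp [hF]
  have hB0 : 0 ≤ F B := hFtop.trans (hBmax ⊤ (Set.mem_insert _ _))
  by_cases hCt : C = ⊤
  · have := hBmax C (by rw [hCt]; exact Set.mem_insert _ _)
    linarith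
  · have hC𝒞 : C ∈ 𝒞 := by
      refine ⟨hCc, hCo, hCt, ?_⟩
      have : 0 < F C := lt_of_le_of_lt hB0 hFC
      simp only [hF] at this
      linarith
    have := hBmax C (Set.mem_insert_of_mem _ hC𝒞)
    linarith

end Pool.H80.MV.NegativeAnswer
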